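import Pool.Agent.H110R3.UF.StmtsB

/-! Multiplicativity of nested insertions. -/

open CategoryTheory MonoidalCategory CategoryTheory.Limits

universe v u

namespace Pool.Agent.H795R3.UF

open Pool.Agent.H110R3.UF

section
variable {D : Type u} [Category.{v} D] [MonoidalCategory D]

/-- insertion is natural -/
theorem ins_nat {A B : D} (s : A ⟶ B) (W W' : D) (r : 𝟙_ D ⟶ W ⊗ W') :
    s ≫ ins B W W' r = ins A W W' r ≫ ((s ▷ W) ▷ W') := by
  unfold ins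
  rw [rightUnitor_inv_naturality_assoc, ← whisker_exchange_assoc]
  simp only [Category.assoc, whiskerRight_tensor, Iso.hom_inv_id, Category.comp_id]

/-- insertion and whiskering -/
theorem ins_whisker (Y X W W' : D) (r : 𝟙_ D ⟶ W ⊗ W') :
    Y ◁ ins X W W' r = ins (Y ⊗ X) W W' r ≫ (α_ (Y ⊗ X) W W').hom ≫
      (α_ Y X (W ⊗ W')).hom ≫ (Y ◁ (α_ X W W').inv) := by
  unfold ins
  monoidal

theorem main (X : D) (H : HalfBr D X) (Y Y' W W' : D) (R : 𝟙_ D ⟶ Y ⊗ Y')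
    (r : 𝟙_ D ⟶ W ⊗ W') :
    insv H (Y ⊗ W) (W' ⊗ Y') (nest Y Y' W W' R r) =
      insv H Y Y' R ≫ ((Y ◁ insv H W W' r) ▷ Y') ≫ reas X Y Y' W W' := by
  have h1 : (H.σ Y).hom ▷ Y' ≫ ((Y ◁ ins X W W' r) ▷ Y') =
      ((ins (X ⊗ Y) W W' r ≫ (((H.σ Y).hom ▷ W) ▷ W')) ≫ (α_ (Y ⊗ X) W W').hom ≫
      (α_ Y X (W ⊗ W')).hom ≫ (Y ◁ (α_ X W W').inv)) ▷ Y' := by
    rw [← comp_whiskerRight, ins_whisker, ← ins_nat]
    simp only [Category.assoc]
  have h2 : insv H Y Y' R ≫ ((Y ◁ insv H W W' r) ▷ Y') ≫ reas X Y Y' W W' =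
      ins X Y Y' R ≫ (((H.σ Y).hom ▷ Y') ≫ ((Y ◁ ins X W W' r) ▷ Y')) ≫
        ((Y ◁ ((H.σ W).hom ▷ W')) ▷ Y') ≫ reas X Y Y' W W' := by
    unfold insv
    simp only [whiskerLeft_comp, comp_whiskerRight, Category.assoc]
  rw [h2, h1]
  unfold insv nest reas ins
  rw [H.hex]
  monoidal

end

theorem t : TaskB1.{v, u} := by
  intro D _ _ X H Y Y' W W' R r
  exact main X H Y Y' W W' R r

end Pool.Agent.H795R3.UF
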